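import Pool.Agent.TH127.CF.Defs
import Mathlib.Tactic.Ring
import Mathlib.Tactic.Linarith
import Mathlib.Tactic.LinearCombination
import Mathlib.Tactic.Positivity
import Mathlib.Tactic.Module
import Mathlib.Algebra.Order.Ring.Int
import Mathlib.Algebra.Ring.Int.Parity
import Mathlib.RingTheory.Int.Basic

/-!
# Algebraic classes on cubic fourfolds: discriminants and saturation
-/

namespace Pool.Agent.TH127.CF

universe u

variable {N : Type u} [AddCommGroup N] (L : CubicLattice N)

/-- The coefficient of the binary form of discriminants. -/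
def CubicLattice.mix (S T : N) : ℤ :=
  3 * L.form S T - L.form S L.h * L.form T L.h

lemma disc_comb (S T : N) (x y : ℤ) : L.disc (x • S + y • T) =
    x ^ 2 * L.disc S + 2 * (x * y * L.mix S T) + y ^ 2 * L.disc T := by
  have h1 := L.symm T S
  simp only [CubicLattice.disc, CubicLattice.mix, map_add, map_smul, LinearMap.add_apply,
    LinearMap.smul_apply, smul_eq_mul, h1]
  ring

lemma disc_add_h (T : N) (j : ℤ) : L.disc (T + j • L.h) = L.disc T := by
  have h1 := L.symm L.h T
  have h2 := L.hh
  simp only [CubicLattice.disc, map_add, map_smul, LinearMap.add_apply,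
    LinearMap.smul_apply, smul_eq_mul, h1, h2]
  ring

lemma disc_smul (T : N) (j : ℤ) : L.disc (j • T) = j ^ 2 * L.disc T := by
  simp only [CubicLattice.disc, map_smul, LinearMap.smul_apply, smul_eq_mul]
  ring

lemma disc_neg (T : N) : L.disc (-T) = L.disc T := by
  have := disc_smul L T (-1)
  rw [neg_one_smul] at this
  rw [this]; ring

lemma even_disc (T : N) : 2 ∣ L.disc T := by
  obtain ⟨c, hc⟩ := L.parity T
  have h1 : L.form T T = L.form T L.h + 2 * c := by linarith
  unfold CubicLattice.disc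
  rw [h1]
  have h2 : 2 ∣ L.form T L.h * (L.form T L.h - 1) := by
    rcases Int.even_or_odd (L.form T L.h) with h | h
    · exact h.two_dvd.mul_right _
    · exact (h.sub_odd odd_one).two_dvd.mul_left _
  obtain ⟨e, he⟩ := h2
  exact ⟨L.form T L.h + 3 * c - e, by linear_combination -he⟩

/-- `h` is primitive. -/
lemma h_primitive {y : N} {k x : ℤ} (hk : k ≠ 0) (h : k • y = x • L.h) :
    ∃ j : ℤ, y = j • L.h := by
  have h1 : k ^ 2 * L.form y y = 3 * x ^ 2 := by
    have e1 : L.form (k • y) (k • y) = L.form (x • L.h) (x • L.h) := by rw [h]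
    simp only [map_smul, LinearMap.smul_apply, smul_eq_mul, L.hh] at e1
    linear_combination e1
  have h2 : k ^ 2 ∣ (3 * x) ^ 2 := ⟨3 * L.form y y, by linear_combination (-3) * h1⟩
  rw [Int.pow_dvd_pow_iff (by norm_num)] at h2
  obtain ⟨l, hl⟩ := h2
  have h3 : l ^ 2 = 3 * L.form y y := by
    have h4 : k ^ 2 * l ^ 2 = k ^ 2 * (3 * L.form y y) := by
      have : (3 * x) ^ 2 = (k * l) ^ 2 := by rw [hl]
      linear_combination 3 * (-h1) - this
    exact mul_left_cancel₀ (pow_ne_zero 2 hk) h4
  have h5 : (3 : ℤ) ∣ l := Int.prime_three.dvd_of_dvd_pow ⟨_, h3⟩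
  obtain ⟨m, hm⟩ := h5
  refine ⟨m, ?_⟩
  have h6 : x = k * m := by
    rw [hm] at hl
    linarith
  by_contra hne
  have h7 : y - m • L.h ≠ 0 := sub_ne_zero.2 hne
  have h8 : k • (y - m • L.h) = 0 := by
    rw [smul_sub, h, h6, mul_smul, sub_self]
  have h9 := L.pos _ h7
  have h10 : k * L.form (y - m • L.h) (y - m • L.h) = 0 := by
    have : L.form (k • (y - m • L.h)) (y - m • L.h) = 0 := by rw [h8]; simp
    simpa using this
  rcases mul_eq_zero.1 h10 with h11 | h11
  · exact hk h11
  · omega

/-- The discriminant of `T` is positive unless `T` is a multiple of `h`. -/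
lemma disc_nonneg (T : N) : 0 ≤ L.disc T ∧ (L.disc T = 0 → ∃ j : ℤ, T = j • L.h) := by
  have h1 : L.form ((3 : ℤ) • T - L.form T L.h • L.h) ((3 : ℤ) • T - L.form T L.h • L.h) =
      3 * L.disc T := by
    have h2 := L.symm L.h T
    simp only [CubicLattice.disc, map_sub, map_smul, LinearMap.sub_apply, LinearMap.smul_apply,
      smul_eq_mul, h2, L.hh]
    ring
  by_cases h0 : (3 : ℤ) • T - L.form T L.h • L.h = 0
  · rw [h0] at h1
    simp only [map_zero] at h1
    refine ⟨by omega, fun _ => ?_⟩
    exact h_primitive L (k := 3) (by norm_num) (sub_eq_zero.1 h0)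
  · have := L.pos _ h0
    exact ⟨by omega, fun h => by omega⟩

/-- Each class `T` lies in a saturated sublattice; the discriminants differ by a square. -/
lemma exists_saturated {T : N} (hT : L.disc T ≠ 0) :
    ∃ (T' : N) (a : ℤ), L.Saturated T' ∧ a ≠ 0 ∧ L.disc T = a ^ 2 * L.disc T' := by
  classical
  -- the discriminants of classes in the saturation
  let P : ℕ → Prop := fun m => 0 < m ∧ ∃ (y : N) (k : ℤ), k ≠ 0 ∧ (∃ a b : ℤ, k • y = a • L.h +
    b • T) ∧ L.disc y = m
  have hTp : 0 < L.disc T := lt_of_le_of_ne (disc_nonneg L T).1 (Ne.symm hT)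
  have hP : ∃ m, P m := ⟨(L.disc T).toNat, by
    refine ⟨by omega, T, 1, one_ne_zero, ⟨0, 1, by simp⟩, by omega⟩⟩
  obtain ⟨hm0, T', k, hk, ⟨a, b, hab⟩, hd⟩ := Nat.find_spec hP
  have hmin : ∀ y : N, 0 < L.disc y → (∃ (l : ℤ), l ≠ 0 ∧ ∃ a b : ℤ, l • y = a • L.h + b • T) →
      L.disc T' ≤ L.disc y := by
    rintro y hy ⟨l, hl, hy'⟩
    rw [hd]
    have := Nat.find_min' hP (m := (L.disc y).toNat) ⟨by omega, y, l, hl, hy', by omega⟩
    omega
  have hd0 : 0 < L.disc T' := by rw [hd]; exact_mod_cast hm0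
  have hb : b ≠ 0 := by
    rintro rfl
    rw [zero_smul, add_zero] at hab
    have h1 : L.disc (k • T') = L.disc (a • L.h) := by rw [hab]
    rw [disc_smul, disc_smul] at h1
    have h2 : L.disc L.h = 0 := by
      unfold CubicLattice.disc
      rw [L.hh]; norm_num
    rw [h2, mul_zero] at h1
    rcases mul_eq_zero.1 h1 with h3 | h3
    · exact hk (pow_eq_zero_iff (two_ne_zero) |>.1 h3)
    · omega
  -- every class in the saturation is in the span of `h` and `T'`
  have key : ∀ (y : N) (l : ℤ), l ≠ 0 → (∃ a b : ℤ, l • y = a • L.h + b • T) →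
      ∃ a b : ℤ, y = a • L.h + b • T' := by
    rintro y l hl ⟨c, e, hy⟩
    -- `(l b) y = (k e) T' + …`
    have h1 : (l * b) • y = (b * c - e * a) • L.h + (e * k) • T' := by
      have e1 : (l * b) • y = b • (l • y) := by rw [smul_smul, mul_comm]
      have e2 : (e * k) • T' = e • (k • T') := by rw [smul_smul]
      rw [e1, e2, hy, hab, smul_add, smul_add, smul_smul, smul_smul, smul_smul, smul_smul,
        sub_smul, mul_comm e b]
      abel
    have hlb : l * b ≠ 0 := mul_ne_zero hl hb
    -- nearest integer to `e k / (l b)`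
    obtain ⟨j, hj⟩ : ∃ j : ℤ, 2 * |e * k - j * (l * b)| ≤ |l * b| := by
      refine ⟨(2 * (e * k) + |l * b|) / (2 * |l * b|) * (l * b).sign, ?_⟩
      have hpos : 0 < |l * b| := abs_pos.2 hlb
      have h2 := Int.emod_add_mul_ediv (2 * (e * k) + |l * b|) (2 * |l * b|)
      have h3 := Int.emod_nonneg (2 * (e * k) + |l * b|) (b := 2 * |l * b|) (by positivity)
      have h4 := Int.emod_lt_of_pos (2 * (e * k) + |l * b|) (b := 2 * |l * b|) (by positivity)
      set q := (2 * (e * k) + |l * b|) / (2 * |l * b|)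
      have h5 : q * (l * b).sign * (l * b) = q * |l * b| := by
        rw [mul_assoc, Int.sign_mul_self_eq_abs]
      rw [h5]
      have h6 : |e * k - q * abs (l * b)| * 2 = abs (2 * (e * k - q * abs (l * b))) := by
        rw [abs_mul, mul_comm]; norm_num
      rw [mul_comm, h6, abs_le]
      constructor
      · nlinarith
      · nlinarith
    have h6 : (l * b) • (y - j • T') = (b * c - e * a) • L.h + (e * k - j * (l * b)) • T' := by
      rw [smul_sub, h1]
      module
    have h7 : (l * b) ^ 2 * L.disc (y - j • T') = (e * k - j * (l * b)) ^ 2 * L.disc T' := by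
      rw [← disc_smul, h6, add_comm, disc_add_h, disc_smul]
    have h8 : L.disc (y - j • T') = 0 := by
      by_contra hne
      have h9 : 0 < L.disc (y - j • T') := lt_of_le_of_ne (disc_nonneg L _).1 (Ne.symm hne)
      have h10' : ∃ a b : ℤ, (l * k) • (y - j • T') = a • L.h + b • T := by
        refine ⟨k * c - j * l * a, k * e - j * l * b, ?_⟩
        have e1 : (l * k) • (y - j • T') = k • (l • y) - (j * l) • (k • T') := by
          rw [smul_sub, smul_smul, smul_smul, smul_smul]
          congr 1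
          · rw [mul_comm]
          · congr 1; ring
        rw [e1, hy, hab, smul_add, smul_add, smul_smul, smul_smul, smul_smul, smul_smul,
          sub_smul, sub_smul]
        abel
      have h10 := hmin _ h9 ⟨(l * k), mul_ne_zero hl hk, h10'⟩
      have h11 : 4 * (e * k - j * (l * b)) ^ 2 ≤ (l * b) ^ 2 := by
        have h12 := mul_self_le_mul_self (by positivity) hj
        rw [← sq_abs (e * k - j * (l * b)), ← sq_abs (l * b)]
        nlinarith
      have h13 : 0 < (l * b) ^ 2 := by positivity
      nlinarith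
    obtain ⟨i, hi⟩ := (disc_nonneg L _).2 h8
    exact ⟨i, j, by rw [← hi]; abel⟩
  obtain ⟨c, e, hce⟩ := key T 1 one_ne_zero ⟨0, 1, by simp⟩
  refine ⟨T', e, ?_, ?_, ?_⟩
  · rintro y l hl ⟨c', e', hy⟩
    refine key y (l * k) (mul_ne_zero hl hk) ⟨k * c' + e' * a, e' * b, ?_⟩
    have e1 : (l * k) • y = k • (l • y) := by rw [smul_smul, mul_comm]
    have e2 : k • (e' • T') = e' • (k • T') := by rw [smul_smul, smul_smul, mul_comm]
    rw [e1, hy, smul_add, e2, hab, smul_add, smul_smul, smul_smul, smul_smul, add_smul]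
    abel
  · rintro rfl
    apply hT
    rw [hce, zero_smul, add_zero, disc_smul]
    have h2 : L.disc L.h = 0 := by
      unfold CubicLattice.disc
      rw [L.hh]; norm_num
    rw [h2, mul_zero]
  · rw [← disc_smul, hce, add_comm, disc_add_h]

/-- The condition on the variety of lines, without saturation. -/
lemma hasHilbertSquare_iff : L.HasHilbertSquare ↔
    ∃ (T : N) (n : ℤ), L.disc T = 2 * (n ^ 2 + n + 1) := by
  constructor
  · rintro ⟨d, ⟨a, n, -, h⟩, T, -, hT⟩
    exact ⟨a • T, n, by rw [disc_smul, hT, h]; ring⟩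
  · rintro ⟨T, n, h⟩
    have h0 : L.disc T ≠ 0 := by
      rw [h]
      have : 0 < n ^ 2 + n + 1 := by nlinarith [sq_nonneg (2 * n + 1)]
      omega
    obtain ⟨T', a, hs, ha, hd⟩ := exists_saturated L h0
    exact ⟨L.disc T', ⟨a, n, ha, by rw [← hd, h]; ring⟩, T', hs, rfl⟩

end Pool.Agent.TH127.CF
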