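import Mathlib.Algebra.Module.LinearMap.Basic
import Mathlib.LinearAlgebra.BilinearMap
import Mathlib.Data.Int.ModEq
import Mathlib.Data.Nat.Prime.Basic

/-!
# Algebraic classes on cubic fourfolds: definitions
-/

namespace Pool.Agent.TH127.CF

universe u

/-- The lattice `N = H^{2,2}(X) ∩ H^4(X, ℤ)` of a smooth cubic fourfold `X`, in the form of the
following properties: a group with a symmetric bilinear form `form` with values in `ℤ`, the class
`h = h^2` of self-intersection `3`, which is characteristic (`form x x` and `form x h` have the same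
parity), and positivity. -/
structure CubicLattice (N : Type u) [AddCommGroup N] where
  /-- the intersection form -/
  form : N →ₗ[ℤ] N →ₗ[ℤ] ℤ
  symm : ∀ x y, form x y = form y x
  /-- the square of the hyperplane class -/
  h : N
  hh : form h h = 3
  parity : ∀ x, 2 ∣ form x x - form x h
  pos : ∀ x, x ≠ 0 → 0 < form x x

variable {N : Type u} [AddCommGroup N]

/-- The discriminant of the sublattice generated by `h` and `T`. -/
def CubicLattice.disc (L : CubicLattice N) (T : N) : ℤ :=
  3 * L.form T T - L.form T L.h ^ 2

/-- The sublattice generated by `h` and `T` is saturated: if a nonzero multiple of `y` lies in it,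
then so does `y`. -/
def CubicLattice.Saturated (L : CubicLattice N) (T : N) : Prop :=
  ∀ (y : N) (k : ℤ), k ≠ 0 → (∃ a b : ℤ, k • y = a • L.h + b • T) →
    ∃ a b : ℤ, y = a • L.h + b • T

/-- The cubic fourfold lies in the Hassett divisor `C_d`: `h` is contained in a saturated sublattice
`K` of rank two and discriminant `d` (for `d ≠ 0`; `K` has a basis `h`, `T`, as `h` is primitive). -/
def CubicLattice.InHassettDivisor (L : CubicLattice N) (d : ℤ) : Prop :=
  ∃ T : N, L.Saturated T ∧ L.disc T = d

/-- Condition `(**)`: `d` is not divisible by `4`, by `9`, or by an odd prime `p ≡ 2 mod 3`. -/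
def Admissible (d : ℤ) : Prop :=
  ¬ 4 ∣ d ∧ ¬ 9 ∣ d ∧ ∀ p : ℕ, p.Prime → p ≠ 2 → p % 3 = 2 → ¬ (p : ℤ) ∣ d

/-- Condition `(***)`: `a^2 d = 2 n^2 + 2 n + 2` for some integers `a ≠ 0` and `n`. -/
def HilbertSquareCondition (d : ℤ) : Prop :=
  ∃ a n : ℤ, a ≠ 0 ∧ a ^ 2 * d = 2 * n ^ 2 + 2 * n + 2

/-- The cubic fourfold has an associated K3 surface (Hassett; Addington and Thomas): it lies in
`C_d` for some `d` which satisfies `(**)`. -/
def CubicLattice.HasAssociatedK3 (L : CubicLattice N) : Prop :=
  ∃ d : ℤ, Admissible d ∧ L.InHassettDivisor d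

/-- The variety of lines of the cubic fourfold is birational to `S^[2]` for some K3 surface `S`
(Addington): it lies in `C_d` for some `d` which satisfies `(***)`. -/
def CubicLattice.HasHilbertSquare (L : CubicLattice N) : Prop :=
  ∃ d : ℤ, HilbertSquareCondition d ∧ L.InHassettDivisor d

end Pool.Agent.TH127.CF
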