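import Pool.Agent.TH127.CF.Basic
import Mathlib.Tactic.IntervalCases
import Mathlib.Tactic.NormNum.GCD
import Mathlib.FieldTheory.Finite.Basic
import Mathlib.Tactic.TFAE
import Mathlib.RingTheory.Coprime.Lemmas

/-!
# Cubic fourfolds in `C_8` and `C_18`
-/

namespace Pool.Agent.TH127.CF

universe u

variable {N : Type u} [AddCommGroup N] (L : CubicLattice N)

/-! ### Arithmetic -/

lemma even_mul_succ' (n : ℤ) : ∃ m : ℤ, n ^ 2 + n = 2 * m := by
  obtain ⟨m, hm⟩ := (Int.even_mul_succ_self n).two_dvd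
  exact ⟨m, by linear_combination hm⟩

lemma prime_three_mod {p : ℕ} (hp : p.Prime) {n : ℤ} (h : (p : ℤ) ∣ n ^ 2 + n + 1) :
    p % 3 ≠ 2 := by
  intro h2
  have := Fact.mk hp
  have h0 : (n : ZMod p) ^ 2 + n + 1 = 0 := by
    have := (ZMod.intCast_zmod_eq_zero_iff_dvd (n ^ 2 + n + 1) p).2 h
    push_cast at this
    exact this
  have h3 : (n : ZMod p) ^ 3 = 1 := by linear_combination ((n : ZMod p) - 1) * h0
  have h1 : (n : ZMod p) ≠ 1 := by
    intro h1
    rw [h1] at h0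
    have h4 : ((3 : ℕ) : ZMod p) = 0 := by push_cast; linear_combination h0
    rw [ZMod.natCast_eq_zero_iff] at h4
    have := (Nat.prime_dvd_prime_iff_eq hp Nat.prime_three).1 h4
    omega
  have h5 : orderOf (n : ZMod p) = 3 := orderOf_eq_prime h3 h1
  have hn0 : (n : ZMod p) ≠ 0 := by
    intro h6
    rw [h6] at h3
    simp at h3
  have h7 := ZMod.orderOf_dvd_card_sub_one hn0
  rw [h5] at h7
  have := hp.two_le
  omega

/-- `(***)` implies `(**)`. -/
lemma admissible_of_hilbert {d : ℤ} (h : HilbertSquareCondition d) : Admissible d := by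
  obtain ⟨a, n, ha, h⟩ := h
  obtain ⟨m, hm⟩ := even_mul_succ' n
  have h1 : a ^ 2 * d = 2 * (n ^ 2 + n + 1) := by linear_combination h
  refine ⟨?_, ?_, ?_⟩
  · rintro ⟨e, rfl⟩
    have : 2 * (a ^ 2 * e) = 2 * m + 1 := by linarith
    omega
  · rintro ⟨e, rfl⟩
    have h2 : (n ^ 2 + n + 1) % 9 = 0 := by
      have : 2 * (n ^ 2 + n + 1) = 9 * (a ^ 2 * e) := by linear_combination -h1
      omega
    have h3 : n % 9 = 0 ∨ n % 9 = 1 ∨ n % 9 = 2 ∨ n % 9 = 3 ∨ n % 9 = 4 ∨ n % 9 = 5 ∨ n % 9 = 6 ∨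
      n % 9 = 7 ∨ n % 9 = 8 := by omega
    rcases h3 with h3 | h3 | h3 | h3 | h3 | h3 | h3 | h3 | h3 <;>
      simp [pow_two, Int.add_emod, Int.mul_emod, h3] at h2
  · intro p hp hp2 hp3 hpd
    have h2 : (p : ℤ) ∣ 2 * (n ^ 2 + n + 1) := h1 ▸ hpd.mul_left _
    have hp' := Nat.prime_iff_prime_int.1 hp
    rcases hp'.dvd_or_dvd h2 with h3 | h3
    · have h4 : p ∣ 2 := by exact_mod_cast h3
      exact hp2 ((Nat.prime_dvd_prime_iff_eq hp Nat.prime_two).1 h4)
    · exact prime_three_mod hp h3 hp3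

/-- A product of primes `≡ 1 mod 3` is `≡ 1 mod 3`. -/
lemma mod_three_eq_one (m : ℕ) (h0 : 0 < m) (h : ∀ p : ℕ, p.Prime → p ∣ m → p % 3 = 1) :
    m % 3 = 1 := by
  induction m using Nat.strong_induction_on with
  | _ m ih =>
    by_cases h1 : m = 1
    · rw [h1]
    have hp := Nat.minFac_prime h1
    obtain ⟨c, hc⟩ := Nat.minFac_dvd m
    have hc0 : 0 < c := by
      rcases Nat.eq_zero_or_pos c with rfl | h2
      · rw [mul_zero] at hc; omega
      · exact h2
    have hcm : c < m := by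
      have := hp.two_le
      nlinarith
    have h2 := ih c hcm hc0 fun p hp' hpc => h p hp' (hc ▸ hpc.mul_left _)
    have h3 := h _ hp (Nat.minFac_dvd m)
    rw [hc, Nat.mul_mod, h2, h3]

lemma mod_three_of_admissible {c : ℤ} (hc : 0 < c) (h : Admissible (6 * c)) : c % 3 = 1 := by
  obtain ⟨h4, h9, hp⟩ := h
  have h1 : c.toNat % 3 = 1 := by
    apply mod_three_eq_one _ (by omega)
    intro p hpp hpc
    have hpc' : (p : ℤ) ∣ c := by
      have : ((c.toNat : ℕ) : ℤ) = c := Int.toNat_of_nonneg hc.le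
      rw [← this]
      exact_mod_cast hpc
    by_contra hne
    have h2 : p % 3 = 0 ∨ p % 3 = 2 := by omega
    rcases h2 with h2 | h2
    · have h3 : p = 3 := ((Nat.prime_dvd_prime_iff_eq Nat.prime_three hpp).1
        (Nat.dvd_of_mod_eq_zero h2)).symm
      subst h3
      obtain ⟨e, he⟩ := hpc'
      exact h9 ⟨2 * e, by rw [he]; push_cast; ring⟩
    · by_cases h3 : p = 2
      · subst h3
        obtain ⟨e, he⟩ := hpc'
        exact h4 ⟨3 * e, by rw [he]; push_cast; ring⟩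
      · exact hp p hpp h3 h2 (hpc'.mul_left _)
  omega

/-! ### Classes with the right discriminant -/

/-- The criterion for `S` of discriminant `2 m^2` and `T` with `gcd(mix S T, m) = 1`. -/
theorem hilbert_of_coprime {S T : N} {m : ℤ} (hS : L.disc S = 2 * m ^ 2)
    (h : IsCoprime (L.mix S T) m) : L.HasHilbertSquare := by
  rw [hasHilbertSquare_iff]
  obtain ⟨e, he⟩ := even_disc L T
  obtain ⟨y, k, hyk⟩ : ∃ y k : ℤ, L.mix S T * y - 2 * m * k = 1 + m := by
    rcases Int.even_or_odd (L.mix S T) with h1 | h1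
    · obtain ⟨b, hb⟩ := h1.two_dvd
      have hm : Odd m := by
        rw [← Int.not_even_iff_odd]
        intro h2
        have h3 : IsUnit (2 : ℤ) := h.isUnit_of_dvd' h1.two_dvd h2.two_dvd
        rw [Int.isUnit_iff] at h3
        omega
      obtain ⟨l, hl⟩ := hm
      rw [hb] at h
      obtain ⟨u, v, huv⟩ := (IsCoprime.of_mul_left_right h)
      refine ⟨u * (l + 1), -(v * (l + 1)), ?_⟩
      rw [hb]
      linear_combination (2 * (l + 1)) * huv + (-1) * hl
    · have h2 : IsCoprime (L.mix S T) (2 * m) := by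
        refine IsCoprime.mul_right ?_ h
        obtain ⟨b, hb⟩ := h1
        exact ⟨1, -b, by rw [hb]; ring⟩
      obtain ⟨u, v, huv⟩ := h2
      refine ⟨u * (1 + m), -(v * (1 + m)), ?_⟩
      linear_combination (1 + m) * huv
  refine ⟨(k ^ 2 + k + 1 - e * y ^ 2) • S + y • T, m * (k ^ 2 + k + 1 - e * y ^ 2) + k, ?_⟩
  rw [disc_comb, hS, he]
  linear_combination (2 * (k ^ 2 + k + 1 - e * y ^ 2)) * hyk

/-- If the discriminants `8` and `d ≡ 2 mod 4` occur, so does some `2 n^2 + 2 n + 2`. -/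
theorem hilbert_of_eight {P T : N} (hP : L.disc P = 8) (hT : L.disc T % 4 = 2) :
    L.HasHilbertSquare := by
  rcases Int.even_or_odd (L.mix P T) with h1 | h1
  · rw [hasHilbertSquare_iff]
    obtain ⟨b, hb⟩ := h1.two_dvd
    obtain ⟨f, hf⟩ : ∃ f : ℤ, L.disc T = 2 * (2 * f + 1) := ⟨L.disc T / 4, by omega⟩
    -- it suffices to solve `2 x (b - 2 k - 1) = k ^ 2 + k + 1 - (2 f + 1)`
    suffices h : ∃ x k : ℤ, 2 * x * (b - 2 * k - 1) = k ^ 2 + k - 2 * f by
      obtain ⟨x, k, h⟩ := h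
      refine ⟨x • P + (1 : ℤ) • T, 2 * x + k, ?_⟩
      rw [disc_comb, hP, hf, hb]
      linear_combination 2 * h
    rcases Int.even_or_odd b with hb' | hb'
    · obtain ⟨g, hg⟩ := hb'.two_dvd
      obtain ⟨j, hj⟩ := even_mul_succ' g
      refine ⟨-(j - f), g, ?_⟩
      rw [hg]
      linear_combination -hj
    · obtain ⟨g, hg⟩ := hb'
      obtain ⟨i, hi⟩ := even_mul_succ' (g - 1)
      -- `k = g - 1` or `k = g + 1`
      rcases Int.even_or_odd (i - f) with h2 | h2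
      · obtain ⟨j, hj⟩ := h2.two_dvd
        refine ⟨j, g - 1, ?_⟩
        rw [hg]
        linear_combination 2 * (-hj) - hi
      · obtain ⟨j, hj⟩ := h2
        refine ⟨-(j + g + 1), g + 1, ?_⟩
        rw [hg]
        linear_combination 2 * (-hj) - hi
  · refine hilbert_of_coprime L (S := P) (T := T) (m := 2) (by rw [hP]; norm_num) ?_
    obtain ⟨b, hb⟩ := h1
    exact ⟨1, -b, by rw [hb]; ring⟩

/-- A class of discriminant `18` can be moved to a class orthogonal to `h`. -/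
lemma exists_orthogonal {S : N} (hS : L.disc S = 18) :
    ∃ j : ℤ, L.form (S + j • L.h) L.h = 0 ∧ L.form S L.h = -3 * j := by
  have h1 : (3 : ℤ) ∣ L.form S L.h := by
    apply Int.prime_three.dvd_of_dvd_pow (n := 2)
    refine ⟨L.form S S - 6, ?_⟩
    unfold CubicLattice.disc at hS
    linear_combination -hS
  obtain ⟨s, hs⟩ := h1
  refine ⟨-s, ?_, by rw [hs]; ring⟩
  simp only [map_add, map_smul, LinearMap.add_apply, LinearMap.smul_apply, smul_eq_mul, L.hh, hs]
  ring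

/-- The criterion for `S` of discriminant `18`, orthogonal to `h`. -/
lemma hilbert_of_orthogonal {S T : N} (hS : L.disc S = 18) (h0 : L.form S L.h = 0) {e : ℤ}
    (he : L.disc T = 2 * e) (h : ∃ x n : ℤ, 9 * x ^ 2 + 6 * L.form S T * x + 4 * e = n ^ 2 + n + 1) :
    L.HasHilbertSquare := by
  rw [hasHilbertSquare_iff]
  obtain ⟨x, n, h⟩ := h
  refine ⟨x • S + (2 : ℤ) • T, n, ?_⟩
  rw [disc_comb, hS, he, CubicLattice.mix, h0]
  linear_combination 2 * h

/-- Classes `T` with `3 ∤ T h`. -/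
lemma hilbert_of_not_dvd {S T : N} (hS : L.disc S = 18) (h0 : L.form S L.h = 0)
    (ha : ¬ 3 ∣ L.form T L.h) : L.HasHilbertSquare := by
  obtain ⟨e, he⟩ := even_disc L T
  apply hilbert_of_orthogonal L hS h0 he
  set t := L.form S T
  have h1 : e % 3 = 1 := by
    have h2 : L.disc T = 3 * L.form T T - L.form T L.h ^ 2 := rfl
    have h3 : L.form T L.h % 3 = 1 ∨ L.form T L.h % 3 = 2 := by omega
    have h4 : L.form T L.h ^ 2 % 3 = 1 := by
      rcases h3 with h3 | h3 <;> simp [pow_two, Int.mul_emod, h3]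
    omega
  have h5 : ∀ k : ℤ, (k % 3 = 0 ∨ k % 3 = 2) → ∃ z : ℤ, k ^ 2 + k + 1 - 4 * e = 3 * z := by
    intro k hk
    refine ⟨(k ^ 2 + k + 1 - 4 * e) / 3, ?_⟩
    have h6 : (k ^ 2 + k) % 3 = 0 := by
      rcases hk with hk | hk <;> simp [pow_two, Int.add_emod, Int.mul_emod, hk]
    omega
  by_cases ht : t % 3 = 1
  · obtain ⟨z, hz⟩ := h5 (t - 1) (by omega)
    exact ⟨z, 3 * z + (t - 1), by linear_combination -hz⟩
  · obtain ⟨z, hz⟩ := h5 t (by omega)
    exact ⟨-z, 3 * (-z) + t, by linear_combination -hz⟩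

/-- Classes `T` with `3 ∣ T h`. -/
lemma hilbert_of_dvd {S T : N} (hS : L.disc S = 18) (h0 : L.form S L.h = 0) {c : ℤ}
    (hT : L.disc T = 6 * c) (h : c % 3 = 1 ∨ ¬ 3 ∣ L.form S T) : L.HasHilbertSquare := by
  apply hilbert_of_orthogonal L hS h0 (e := 3 * c) (by rw [hT]; ring)
  set t := L.form S T
  -- it suffices to solve `3 x ^ 2 + 2 t x + 4 c = 3 m ^ 2 + 3 m + 1`
  suffices h' : ∃ x m : ℤ, 3 * x ^ 2 + 2 * t * x + 4 * c = 3 * m ^ 2 + 3 * m + 1 by
    obtain ⟨x, m, h'⟩ := h'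
    exact ⟨x, 3 * m + 1, by linear_combination 3 * h'⟩
  have ht : t % 3 = 0 ∨ t % 3 = 1 ∨ t % 3 = 2 := by omega
  rcases ht with ht | ht | ht
  · have hc : c % 3 = 1 := by
      rcases h with h | h
      · exact h
      · omega
    obtain ⟨s, hs⟩ : ∃ s : ℤ, t = 3 * s := ⟨t / 3, by omega⟩
    obtain ⟨z, hz⟩ : ∃ z : ℤ, 1 - 4 * c = 3 * z := ⟨(1 - 4 * c) / 3, by omega⟩
    refine ⟨-(s ^ 2 + s + z), -(s ^ 2 + s + z) + s, ?_⟩
    rw [hs]
    linear_combination -hz
  · obtain ⟨k, hk⟩ : ∃ k : ℤ, t = 3 * k + 1 := ⟨t / 3, by omega⟩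
    refine ⟨-(3 * k ^ 2 + 3 * k + 1 - 4 * c), -(3 * k ^ 2 + 3 * k + 1 - 4 * c) + k, ?_⟩
    rw [hk]
    ring
  · obtain ⟨k, hk⟩ : ∃ k : ℤ, t = 3 * k + 2 := ⟨t / 3, by omega⟩
    refine ⟨3 * k ^ 2 + 3 * k + 1 - 4 * c, 3 * k ^ 2 + 3 * k + 1 - 4 * c + k, ?_⟩
    rw [hk]
    ring

lemma disc_eq_six {T : N} (ha : 3 ∣ L.form T L.h) : ∃ c : ℤ, L.disc T = 6 * c := by
  obtain ⟨a, ha⟩ := ha
  obtain ⟨e, he⟩ := even_disc L T
  have h1 : L.disc T = 3 * L.form T T - L.form T L.h ^ 2 := rfl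
  have h2 : L.disc T % 3 = 0 := by
    rw [h1, ha]
    have : 3 * L.form T T - (3 * a) ^ 2 = 3 * (L.form T T - 3 * a ^ 2) := by ring
    omega
  exact ⟨L.disc T / 6, by omega⟩

/-- If the discriminants `18` and an admissible one occur, so does some `2 n^2 + 2 n + 2`. -/
theorem hilbert_of_eighteen {S T : N} (hS : L.disc S = 18) (hT : Admissible (L.disc T)) :
    L.HasHilbertSquare := by
  obtain ⟨j, hj, -⟩ := exists_orthogonal L hS
  have hS' : L.disc (S + j • L.h) = 18 := by rw [disc_add_h, hS]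
  by_cases ha : 3 ∣ L.form T L.h
  · obtain ⟨c, hc⟩ := disc_eq_six L ha
    apply hilbert_of_dvd L hS' hj hc
    left
    apply mod_three_of_admissible _ (hc ▸ hT)
    have h1 := (disc_nonneg L T).1
    have h2 : L.disc T ≠ 0 := fun h => hT.1 (h ▸ dvd_zero _)
    omega
  · exact hilbert_of_not_dvd L hS' hj ha

/-- If the discriminant `18` occurs for `S` and `S T` is not divisible by `3`, then some
`2 n^2 + 2 n + 2` occurs. -/
theorem hilbert_of_sextic {S T : N} (hS : L.disc S = 18) (hT : ¬ 3 ∣ L.form S T) :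
    L.HasHilbertSquare := by
  obtain ⟨j, hj, -⟩ := exists_orthogonal L hS
  have hS' : L.disc (S + j • L.h) = 18 := by rw [disc_add_h, hS]
  by_cases ha : 3 ∣ L.form T L.h
  · obtain ⟨c, hc⟩ := disc_eq_six L ha
    apply hilbert_of_dvd L hS' hj hc
    right
    intro h
    apply hT
    have h1 : L.form (S + j • L.h) T = L.form S T + j * L.form T L.h := by
      rw [L.symm T L.h]
      simp
    rw [h1] at h
    exact (dvd_add_left (ha.mul_left j)).1 h
  · exact hilbert_of_not_dvd L hS' hj ha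

/-- Odd quadric fibrations. -/
theorem hilbert_of_plane {P T : N} (hPP : L.form P P = 3) (hPh : L.form P L.h = 1)
    (hT : Odd (L.form (L.h - P) T)) : L.HasHilbertSquare := by
  refine hilbert_of_coprime L (S := P) (T := T) (m := 2) ?_ ?_
  · rw [CubicLattice.disc, hPP, hPh]; norm_num
  · rw [map_sub, LinearMap.sub_apply] at hT
    obtain ⟨b, hb⟩ := hT
    refine ⟨-1, L.form P T - b, ?_⟩
    rw [CubicLattice.mix, hPh, L.symm T L.h]
    linear_combination hb

theorem hilbert_imp_k3 (h : L.HasHilbertSquare) : L.HasAssociatedK3 := by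
  obtain ⟨d, hd, h⟩ := h
  exact ⟨d, admissible_of_hilbert hd, h⟩

/-- **Cubic fourfolds in `C_8`.** -/
theorem tfae_eight (h8 : L.InHassettDivisor 8) :
    List.TFAE [∃ d : ℤ, d % 4 = 2 ∧ L.InHassettDivisor d, L.HasAssociatedK3,
      L.HasHilbertSquare] := by
  tfae_have 1 → 3 := by
    rintro ⟨d, hd, T, -, rfl⟩
    obtain ⟨P, -, hP⟩ := h8
    exact hilbert_of_eight L hP hd
  tfae_have 3 → 2 := hilbert_imp_k3 L
  tfae_have 2 → 1 := by
    rintro ⟨d, ⟨hd, -⟩, T, hs, rfl⟩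
    have := even_disc L T
    exact ⟨_, by omega, T, hs, rfl⟩
  tfae_finish

/-- **Cubic fourfolds in `C_18`.** -/
theorem iff_eighteen (h18 : L.InHassettDivisor 18) :
    L.HasAssociatedK3 ↔ L.HasHilbertSquare := by
  refine ⟨?_, hilbert_imp_k3 L⟩
  rintro ⟨d, hd, T, -, rfl⟩
  obtain ⟨S, -, hS⟩ := h18
  exact hilbert_of_eighteen L hS hd

theorem hilbert_of_known {d : ℤ} (hd : d = 14 ∨ d = 26 ∨ d = 38 ∨ d = 42)
    (h : L.InHassettDivisor d) : L.HasHilbertSquare := by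
  refine ⟨d, ?_, h⟩
  rcases hd with rfl | rfl | rfl | rfl
  · exact ⟨1, 2, by norm_num, by norm_num⟩
  · exact ⟨1, 3, by norm_num, by norm_num⟩
  · exact ⟨7, 30, by norm_num, by norm_num⟩
  · exact ⟨1, 4, by norm_num, by norm_num⟩

end Pool.Agent.TH127.CF
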